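import Mathlib

/-! Random graphs with locally dependent edges: definition and a basic construction. -/

open MeasureTheory ProbabilityTheory Finset unitInterval

namespace Pool.Agent.V11328.Dep

/-- Unordered pairs of distinct vertices. -/
abbrev Prs (n : ℕ) := {e : Sym2 (Fin n) // ¬ e.IsDiag}

/-- `μ` is the law of a `d`-dependent random graph on `n` vertices with edge probability `p`: it is
a probability measure on graphs, every pair is an edge with probability `p`, and there is a
dependency graph `D` on the pairs with all degrees at most `d`, i.e. the indicator of `e` is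
independent of the family of the indicators of all pairs `f` different from `e` and not adjacent to
`e` in `D`. -/
structure IsDep (n d : ℕ) (p : ℝ) (μ : Measure (SimpleGraph (Fin n))) : Prop where
  prob : IsProbabilityMeasure μ
  edge : ∀ e : Prs n, μ.real {G | e.1 ∈ G.edgeSet} = p
  dep : ∃ D : SimpleGraph (Prs n), (∀ e, {f | D.Adj e f}.ncard ≤ d) ∧
    ∀ e : Prs n, IndepFun (fun G : SimpleGraph (Fin n) => (e.1 ∈ G.edgeSet : Prop))
      (fun (G : SimpleGraph (Fin n)) (f : {f : Prs n // f ≠ e ∧ ¬ D.Adj e f}) =>
        (f.1.1 ∈ G.edgeSet : Prop)) μ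

/-- Bernoulli measure on `Bool`. -/
noncomputable def bern (p : I) : Measure Bool :=
  ENNReal.ofReal (p : ℝ) • Measure.dirac true + ENNReal.ofReal (1 - (p : ℝ)) • Measure.dirac false

instance (p : I) : IsProbabilityMeasure (bern p) := by
  constructor
  simp only [bern, Measure.add_apply, Measure.smul_apply, measure_univ, smul_eq_mul, mul_one]
  rw [← ENNReal.ofReal_add p.2.1 (by linarith [p.2.2])]
  simp

lemma bern_true (p : I) : bern p {true} = ENNReal.ofReal p := by
  simp [bern]

lemma bern_false (p : I) : bern p {false} = ENNReal.ofReal (1 - (p : ℝ)) := by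
  simp [bern]

variable {n : ℕ} {ι : Type} [Fintype ι] [DecidableEq ι]

/-- The graph in which the pair `e` is an edge exactly when the coordinate `v e` is `true`. -/
def gph {n : ℕ} {ι : Type} (v : Prs n → ι) (ω : ι → Bool) : SimpleGraph (Fin n) :=
  SimpleGraph.fromEdgeSet {e | ∃ h : ¬ e.IsDiag, ω (v ⟨e, h⟩) = true}

omit [Fintype ι] [DecidableEq ι] in
lemma mem_gph (v : Prs n → ι) (ω : ι → Bool) (e : Prs n) :
    e.1 ∈ (gph v ω).edgeSet ↔ ω (v e) = true := by
  rw [gph, SimpleGraph.edgeSet_fromEdgeSet]
  simp only [Set.mem_sdiff, Set.mem_ofPred_eq, Sym2.mem_diagSet]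
  constructor
  · rintro ⟨⟨h, h1⟩, _⟩
    exact h1
  · intro h
    exact ⟨⟨e.2, h⟩, e.2⟩

/-- Product of Bernoulli measures. -/
noncomputable def prod (ι : Type) [Fintype ι] (p : I) : Measure (ι → Bool) :=
  Measure.pi (fun _ : ι => bern p)

instance (p : I) : IsProbabilityMeasure (prod ι p) := by
  unfold prod; infer_instance

/-- Law of the graph `gph v ω` for independent Bernoulli coordinates. -/
noncomputable def law (v : Prs n → ι) (p : I) : Measure (SimpleGraph (Fin n)) :=
  (prod ι p).map (gph v)

omit [DecidableEq ι] in
lemma measurable_gph (v : Prs n → ι) : Measurable (gph v) := measurable_of_finite _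

instance : MeasurableSingletonClass (SimpleGraph (Fin n)) := by
  constructor
  intro G
  have h := (SimpleGraph.measurable_edgeSet (V := Fin n)) (measurableSet_singleton G.edgeSet)
  have h2 : (SimpleGraph.edgeSet ⁻¹' {G.edgeSet} : Set (SimpleGraph (Fin n))) = {G} := by
    ext H
    simp
  rwa [h2] at h

lemma meas (S : Set (SimpleGraph (Fin n))) : MeasurableSet S :=
  Set.Finite.measurableSet (Set.toFinite _)

omit [DecidableEq ι] in
lemma measω (S : Set (ι → Bool)) : MeasurableSet S :=
  Set.Finite.measurableSet (Set.toFinite _)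

omit [DecidableEq ι] in
lemma law_real (v : Prs n → ι) (p : I) (S : Set (SimpleGraph (Fin n))) :
    (law v p).real S = (prod ι p).real (gph v ⁻¹' S) := by
  rw [measureReal_def, measureReal_def, law, Measure.map_apply (measurable_gph v) (meas S)]

/-- Probability that given coordinates take given values. -/
lemma prod_box (p : I) (T : Finset ι) (b : Bool) :
    (prod ι p).real {ω | ∀ i ∈ T, ω i = b} = (if b then (p : ℝ) else 1 - p) ^ #T := by
  have h : {ω : ι → Bool | ∀ i ∈ T, ω i = b} =
      Set.pi Set.univ (fun i => if i ∈ T then ({b} : Set Bool) else Set.univ) := by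
    ext ω
    simp only [Set.mem_ofPred_eq, Set.mem_pi, Set.mem_univ, true_imp_iff]
    refine forall_congr' fun i => ?_
    by_cases hi : i ∈ T <;> simp [hi]
  rw [h, measureReal_def, prod, Measure.pi_pi]
  have h2 : ∀ i : ι, (bern p) (if i ∈ T then ({b} : Set Bool) else Set.univ) =
      if i ∈ T then bern p {b} else 1 := by
    intro i
    split_ifs
    · rfl
    · exact measure_univ
  simp_rw [h2]
  rw [Finset.prod_ite, Finset.prod_const, Finset.prod_const_one, mul_one, Finset.filter_mem_eq_inter,
    Finset.univ_inter, ENNReal.toReal_pow]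
  congr 1
  cases b
  · rw [bern_false, ENNReal.toReal_ofReal (by linarith [p.2.2])]
    simp
  · rw [bern_true, ENNReal.toReal_ofReal p.2.1]
    simp

omit [DecidableEq ι] in
/-- Coordinates of the product measure are independent. -/
lemma coord_indep (p : I) : iIndepFun (fun (i : ι) (ω : ι → Bool) => ω i) (prod ι p) :=
  iIndepFun_pi (X := fun _ => id) (fun _ => aemeasurable_id)

/-- The basic construction gives a `d`-dependent random graph. -/
theorem law_isDep (v : Prs n → ι) (p : I) (d : ℕ)
    (hfib : ∀ e, {f | f ≠ e ∧ v f = v e}.ncard ≤ d) : IsDep n d p (law v p) := by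
  refine ⟨?_, ?_, ?_⟩
  · exact Measure.isProbabilityMeasure_map (measurable_gph v).aemeasurable
  · intro e
    rw [law_real]
    have h : gph v ⁻¹' {G | e.1 ∈ G.edgeSet} = {ω | ∀ i ∈ ({v e} : Finset ι), ω i = true} := by
      ext ω
      simp only [Set.mem_preimage, Set.mem_ofPred_eq, mem_gph, mem_singleton, forall_eq]
    rw [h, prod_box]
    simp
  · refine ⟨SimpleGraph.fromRel (fun e f => v e = v f), ?_, ?_⟩
    · intro e
      have h : {f | (SimpleGraph.fromRel (fun e f => v e = v f)).Adj e f} =
          {f | f ≠ e ∧ v f = v e} := by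
        ext f
        simp only [SimpleGraph.fromRel_adj, Set.mem_ofPred_eq]
        constructor
        · rintro ⟨h1, h2 | h2⟩
          · exact ⟨h1.symm, h2.symm⟩
          · exact ⟨h1.symm, h2⟩
        · rintro ⟨h1, h2⟩
          exact ⟨h1.symm, Or.inr h2⟩
      rw [h]
      exact hfib e
    · intro e
      have hind := (coord_indep (ι := ι) p).indepFun_finset {v e} (univ \ {v e})
        (Finset.disjoint_sdiff) (fun i => measurable_pi_apply i)
      set F := {f : Prs n // f ≠ e ∧ ¬ (SimpleGraph.fromRel (fun e f => v e = v f)).Adj e f} with hF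
      have hne : ∀ f : F, v f.1 ∈ (univ \ {v e} : Finset ι) := by
        intro f
        simp only [mem_sdiff, mem_univ, mem_singleton, true_and]
        intro h
        exact f.2.2 ((SimpleGraph.fromRel_adj _ _ _).2 ⟨f.2.1.symm, Or.inr h⟩)
      have hcomp := hind.comp
        (φ := fun g : (({v e} : Finset ι) → Bool) => (g ⟨v e, mem_singleton_self _⟩ = true : Prop))
        (ψ := fun (g : ((univ \ {v e} : Finset ι) → Bool)) (f : F) => (g ⟨v f.1, hne f⟩ = true : Prop))
        (measurable_of_finite _) (measurable_of_finite _)
      rw [indepFun_iff_measure_inter_preimage_eq_mul] at hcomp ⊢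
      intro s t hs ht
      have h3 := hcomp s t hs ht
      have e1 : (fun G : SimpleGraph (Fin n) => (e.1 ∈ G.edgeSet : Prop)) ∘ gph v =
          (fun g : (({v e} : Finset ι) → Bool) => (g ⟨v e, mem_singleton_self _⟩ = true : Prop)) ∘
            (fun (ω : ι → Bool) (i : ({v e} : Finset ι)) => ω i) := by
        funext ω
        simp only [Function.comp, eq_iff_iff]
        exact mem_gph v ω e
      have e2 : (fun (G : SimpleGraph (Fin n)) (f : F) => (f.1.1 ∈ G.edgeSet : Prop)) ∘ gph v =
          (fun (g : ((univ \ {v e} : Finset ι) → Bool)) (f : F) =>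
            (g ⟨v f.1, hne f⟩ = true : Prop)) ∘
            (fun (ω : ι → Bool) (i : (univ \ {v e} : Finset ι)) => ω i) := by
        funext ω f
        simp only [Function.comp, eq_iff_iff]
        exact mem_gph v ω f.1
      rw [law, Measure.map_apply (measurable_gph v) (meas _),
        Measure.map_apply (measurable_gph v) (meas _),
        Measure.map_apply (measurable_gph v) (meas _), Set.preimage_inter, ← Set.preimage_comp,
        ← Set.preimage_comp, e1, e2]
      exact h3

end Pool.Agent.V11328.Dep
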