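import Mathlib

/-! Elementary facts on the binomial random graph of Mathlib on a finite vertex set. -/

open MeasureTheory ProbabilityTheory unitInterval Finset
open scoped SimpleGraph

namespace Pool.Agent.V11328

variable {V : Type*} [Fintype V] [DecidableEq V]

/-- All pairs of distinct vertices. -/
noncomputable def allE (V : Type*) [Fintype V] [DecidableEq V] : Finset (Sym2 V) := by
  classical exact univ.filter (fun e => ¬ e.IsDiag)

/-- Edge set of a graph as a finset. -/
noncomputable def ed (G : SimpleGraph V) : Finset (Sym2 V) := by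
  classical exact univ.filter (fun e => e ∈ G.edgeSet)

lemma mem_allE (e : Sym2 V) : e ∈ allE V ↔ ¬ e.IsDiag := by
  classical
  simp [allE]

omit [DecidableEq V] in
lemma mem_ed (G : SimpleGraph V) (e : Sym2 V) : e ∈ ed G ↔ e ∈ G.edgeSet := by
  classical
  simp [ed]

lemma ed_subset (G : SimpleGraph V) : ed G ⊆ allE V := by
  intro e he
  rw [mem_allE]
  rw [mem_ed] at he
  exact G.not_isDiag_of_mem_edgeSet he

omit [DecidableEq V] in
lemma ed_coe (G : SimpleGraph V) : (ed G : Set (Sym2 V)) = G.edgeSet := by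
  ext e; simp [mem_ed]

omit [DecidableEq V] in
lemma ed_inj {G H : SimpleGraph V} (h : ed G = ed H) : G = H := by
  have : G.edgeSet = H.edgeSet := by rw [← ed_coe, ← ed_coe, h]
  exact SimpleGraph.edgeSet_inj.1 this

lemma ed_fromEdgeSet {t : Finset (Sym2 V)} (ht : t ⊆ allE V) :
    ed (SimpleGraph.fromEdgeSet (t : Set (Sym2 V))) = t := by
  ext e
  rw [mem_ed, SimpleGraph.edgeSet_fromEdgeSet]
  simp only [Set.mem_sdiff, mem_coe, Sym2.mem_diagSet]
  constructor
  · exact fun h => h.1
  · exact fun h => ⟨h, (mem_allE e).1 (ht h)⟩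

lemma sum_graph (F : Finset (Sym2 V) → ℝ) :
    ∑ G : SimpleGraph V, F (ed G) = ∑ S ∈ (allE V).powerset, F S := by
  classical
  refine Finset.sum_bij' (fun G _ => ed G)
    (fun S _ => SimpleGraph.fromEdgeSet (S : Set (Sym2 V))) ?_ ?_ ?_ ?_ ?_
  · intro G _
    exact mem_powerset.2 (ed_subset G)
  · intro S _
    exact mem_univ _
  · intro G _
    simp only [ed_coe, SimpleGraph.fromEdgeSet_edgeSet]
  · intro S hS
    exact ed_fromEdgeSet (mem_powerset.1 hS)
  · intro G _
    rfl

/-- Weight of a graph under the binomial model. -/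
noncomputable def gw (p : ℝ) (G : SimpleGraph V) : ℝ := p ^ (#(ed G)) * (1 - p) ^ (#(allE V \ ed G))

lemma gw_nonneg {p : ℝ} (h0 : 0 ≤ p) (h1 : p ≤ 1) (G : SimpleGraph V) : 0 ≤ gw p G := by
  unfold gw
  have : 0 ≤ 1 - p := by linarith
  positivity

/-- Product formula. -/
lemma sum_prod (p : ℝ) (c : Sym2 V → ℝ) :
    ∑ G : SimpleGraph V, gw p G * ∏ e ∈ ed G, c e = ∏ e ∈ allE V, (p * c e + (1 - p)) := by
  classical
  rw [Finset.prod_add]
  have := sum_graph (V := V) (fun S => (p ^ (#S) * (1 - p) ^ (#(allE V \ S))) * ∏ e ∈ S, c e)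
  simp only [gw]
  rw [this]
  refine Finset.sum_congr rfl fun S _ => ?_
  rw [Finset.prod_mul_distrib, Finset.prod_const, Finset.prod_const]
  ring

lemma sum_gw (p : ℝ) : ∑ G : SimpleGraph V, gw p G = 1 := by
  have := sum_prod (V := V) p (fun _ => 1)
  simpa using this

lemma card_allE : #(allE V) = (Fintype.card V).choose 2 := by
  classical
  have h : #((⊤ : SimpleGraph V).edgeFinset) = (Fintype.card V).choose 2 :=
    SimpleGraph.card_edgeFinset_top_eq_card_choose_two
  rw [← h]
  congr 1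
  ext e
  rw [mem_allE, SimpleGraph.mem_edgeFinset, SimpleGraph.edgeSet_top]
  simp

instance : MeasurableSingletonClass (SimpleGraph V) := by
  constructor
  intro G
  have h := (SimpleGraph.measurable_edgeSet (V := V)) (measurableSet_singleton G.edgeSet)
  have h2 : (SimpleGraph.edgeSet ⁻¹' {G.edgeSet} : Set (SimpleGraph V)) = {G} := by
    ext H
    simp
  rwa [h2] at h

lemma real_singleton (p : I) (G : SimpleGraph V) :
    (G(V, p)).real {G} = gw (p : ℝ) G := by
  rw [measureReal_def, SimpleGraph.binomialRandom_singleton]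
  have h1 : G.edgeSet.ncard = #(ed G) := by
    rw [← ed_coe, Set.ncard_coe_finset]
  have h2 : (Nat.card V).choose 2 - #(ed G) = #(allE V \ ed G) := by
    rw [Finset.card_sdiff_of_subset (ed_subset G), card_allE, Nat.card_eq_fintype_card]
  rw [h1, h2]
  unfold gw
  simp [ENNReal.toReal_mul, ENNReal.toReal_pow]

lemma real_event (p : I) (A : Set (SimpleGraph V)) [DecidablePred (· ∈ A)] :
    (G(V, p)).real A = ∑ G ∈ univ.filter (· ∈ A), gw (p : ℝ) G := by
  have h : (↑(univ.filter (· ∈ A)) : Set (SimpleGraph V)) = A := by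
    ext G; simp
  conv_lhs => rw [← h]
  rw [← sum_measureReal_singleton]
  exact Finset.sum_congr rfl fun G _ => real_singleton p G

/-- Exponential moment bound for the number of edges in a set of pairs. -/
lemma mgf_bound {p : ℝ} (h0 : 0 ≤ p) (h1 : p ≤ 1) {T : Finset (Sym2 V)} (hT : T ⊆ allE V)
    {s : ℝ} (hs : |s| ≤ 1) :
    ∑ G : SimpleGraph V, gw p G * Real.exp (s * #(T ∩ ed G)) ≤
      Real.exp (p * #T * (s + s ^ 2)) := by
  classical
  have hprod : ∀ G : SimpleGraph V, Real.exp (s * #(T ∩ ed G)) =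
      ∏ e ∈ ed G, (if e ∈ T then Real.exp s else 1) := by
    intro G
    rw [Finset.prod_ite, Finset.prod_const, Finset.prod_const_one, mul_one, ← Real.exp_nat_mul]
    congr 1
    rw [mul_comm, Finset.inter_comm, ← Finset.filter_mem_eq_inter]
  simp_rw [hprod]
  rw [sum_prod]
  have hle : ∀ e ∈ allE V, p * (if e ∈ T then Real.exp s else 1) + (1 - p) ≤
      if e ∈ T then Real.exp (p * (s + s ^ 2)) else 1 := by
    intro e _
    split_ifs
    · have hb := abs_le.1 (Real.abs_exp_sub_one_sub_id_le hs)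
      have h2 : p * Real.exp s + (1 - p) ≤ 1 + p * (s + s ^ 2) := by nlinarith [hb.2]
      have h3 := Real.add_one_le_exp (p * (s + s ^ 2))
      linarith
    · linarith
  refine (Finset.prod_le_prod (fun e _ => ?_) hle).trans (le_of_eq ?_)
  · have h1' : 0 ≤ 1 - p := by linarith
    split_ifs <;> positivity
  · rw [Finset.prod_ite, Finset.prod_const, Finset.prod_const_one, mul_one, ← Real.exp_nat_mul]
    congr 1
    rw [Finset.filter_mem_eq_inter, Finset.inter_eq_right.2 hT]
    ring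

/-- Chernoff type bound: if every graph in `A` has `a ≤ s X_T` then its probability is small. -/
lemma chernoff (p : I) {T : Finset (Sym2 V)} (hT : T ⊆ allE V)
    {s a : ℝ} (hs : |s| ≤ 1) (A : Set (SimpleGraph V)) (hA : ∀ G ∈ A, a ≤ s * #(T ∩ ed G)) :
    (G(V, p)).real A ≤ Real.exp ((p : ℝ) * #T * (s + s ^ 2) - a) := by
  classical
  rw [real_event, Real.exp_sub, le_div_iff₀ (Real.exp_pos a)]
  refine le_trans ?_ (mgf_bound p.2.1 p.2.2 hT hs)
  rw [Finset.sum_mul]
  calc ∑ G ∈ univ.filter (· ∈ A), gw (p : ℝ) G * Real.exp a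
      ≤ ∑ G ∈ univ.filter (· ∈ A), gw (p : ℝ) G * Real.exp (s * #(T ∩ ed G)) := by
        refine Finset.sum_le_sum fun G hG => ?_
        have hG' : G ∈ A := by simpa using hG
        exact mul_le_mul_of_nonneg_left (Real.exp_le_exp.2 (hA G hG')) (gw_nonneg p.2.1 p.2.2 G)
    _ ≤ ∑ G : SimpleGraph V, gw (p : ℝ) G * Real.exp (s * #(T ∩ ed G)) := by
        refine Finset.sum_le_sum_of_subset_of_nonneg (Finset.filter_subset _ _) fun G _ _ => ?_
        exact mul_nonneg (gw_nonneg p.2.1 p.2.2 G) (Real.exp_pos _).le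

lemma chernoff_upper (p : I) {T : Finset (Sym2 V)} (hT : T ⊆ allE V)
    {η : ℝ} (h0 : 0 ≤ η) (h1 : η ≤ 1) (A : Set (SimpleGraph V))
    (hA : ∀ G ∈ A, (1 + η) * ((p : ℝ) * #T) ≤ #(T ∩ ed G)) :
    (G(V, p)).real A ≤ Real.exp (-(η ^ 2 / 4 * ((p : ℝ) * #T))) := by
  refine (chernoff p hT (s := η / 2) (a := η / 2 * ((1 + η) * ((p : ℝ) * #T)))
    (by rw [abs_le]; constructor <;> linarith) A ?_).trans (le_of_eq ?_)
  · intro G hG
    exact mul_le_mul_of_nonneg_left (hA G hG) (by linarith)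
  · congr 1; ring

lemma chernoff_lower (p : I) {T : Finset (Sym2 V)} (hT : T ⊆ allE V)
    {η : ℝ} (h0 : 0 ≤ η) (h1 : η ≤ 1) (A : Set (SimpleGraph V))
    (hA : ∀ G ∈ A, (#(T ∩ ed G) : ℝ) ≤ (1 - η) * ((p : ℝ) * #T)) :
    (G(V, p)).real A ≤ Real.exp (-(η ^ 2 / 4 * ((p : ℝ) * #T))) := by
  refine (chernoff p hT (s := -(η / 2)) (a := -(η / 2) * ((1 - η) * ((p : ℝ) * #T)))
    (by rw [abs_le]; constructor <;> linarith) A ?_).trans (le_of_eq ?_)
  · intro G hG
    exact mul_le_mul_of_nonpos_left (hA G hG) (by linarith)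
  · congr 1; ring

end Pool.Agent.V11328
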