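import Mathlib

/-! Real valued probabilities for probability mass functions. -/

open Finset
open scoped ENNReal

namespace Pool.Agent.V11328

/-- Probability of the event `B` under `p`, as a real number. -/
noncomputable def pr {α : Type*} (p : PMF α) (B : Set α) : ℝ := (p.toOuterMeasure B).toReal

variable {α β : Type*}

lemma outer_le_one (p : PMF α) (B : Set α) : p.toOuterMeasure B ≤ 1 := by
  have h := (PMF.toOuterMeasure_apply_eq_one_iff (p := p) (s := Set.univ)).2 (Set.subset_univ _)
  rw [← h]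
  exact p.toOuterMeasure.mono (Set.subset_univ _)

lemma outer_ne_top (p : PMF α) (B : Set α) : p.toOuterMeasure B ≠ ∞ :=
  ((outer_le_one p B).trans_lt ENNReal.one_lt_top).ne

lemma pr_nonneg (p : PMF α) (B : Set α) : 0 ≤ pr p B := ENNReal.toReal_nonneg

lemma pr_le_one (p : PMF α) (B : Set α) : pr p B ≤ 1 := by
  unfold pr
  have := ENNReal.toReal_mono ENNReal.one_ne_top (outer_le_one p B)
  simpa using this

lemma ofReal_pr (p : PMF α) (B : Set α) : ENNReal.ofReal (pr p B) = p.toOuterMeasure B :=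
  ENNReal.ofReal_toReal (outer_ne_top p B)

lemma pr_mono_support {p : PMF α} {B C : Set α} (h : ∀ a ∈ p.support, a ∈ B → a ∈ C) :
    pr p B ≤ pr p C := by
  unfold pr
  refine ENNReal.toReal_mono (outer_ne_top p C) ?_
  exact PMF.toOuterMeasure_mono p (fun a ha => h a ha.2 ha.1)

lemma pr_mono {p : PMF α} {B C : Set α} (h : B ⊆ C) : pr p B ≤ pr p C :=
  pr_mono_support (fun _ _ ha => h ha)

lemma pr_union_le (p : PMF α) (B C : Set α) : pr p (B ∪ C) ≤ pr p B + pr p C := by
  unfold pr
  rw [← ENNReal.toReal_add (outer_ne_top p B) (outer_ne_top p C)]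
  exact ENNReal.toReal_mono (ENNReal.add_ne_top.2 ⟨outer_ne_top p B, outer_ne_top p C⟩)
    (MeasureTheory.measure_union_le B C)

lemma pr_empty (p : PMF α) : pr p ∅ = 0 := by simp [pr]

lemma pr_biUnion_le {ι : Type*} (p : PMF α) (s : Finset ι) (B : ι → Set α) :
    pr p (⋃ i ∈ s, B i) ≤ ∑ i ∈ s, pr p (B i) := by
  classical
  induction s using Finset.induction_on with
  | empty => simp [pr_empty]
  | insert a s ha ih =>
    rw [Finset.sum_insert ha, Finset.set_biUnion_insert]
    exact (pr_union_le _ _ _).trans (by linarith)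

lemma pr_zero_of_support {p : PMF α} {B : Set α} (h : ∀ a ∈ p.support, a ∉ B) : pr p B = 0 := by
  have : pr p B ≤ pr p ∅ := pr_mono_support (fun a ha hb => h a ha hb)
  rw [pr_empty] at this
  exact le_antisymm this (pr_nonneg p B)

lemma pr_univ (p : PMF α) : pr p Set.univ = 1 := by
  have h := (PMF.toOuterMeasure_apply_eq_one_iff (p := p) (s := Set.univ)).2 (Set.subset_univ _)
  rw [pr, h]
  simp

lemma one_le_pr_add (p : PMF α) (B C : Set α) (h : ∀ a ∈ p.support, a ∈ B ∨ a ∈ C) :
    1 ≤ pr p B + pr p C := by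
  refine le_trans ?_ (pr_union_le p B C)
  rw [← pr_univ p]
  exact pr_mono_support (fun a ha _ => h a ha)

lemma pr_pure (a : α) (B : Set α) [Decidable (a ∈ B)] :
    pr (PMF.pure a) B = if a ∈ B then 1 else 0 := by
  rw [pr, PMF.toOuterMeasure_pure_apply]
  split_ifs <;> simp

lemma pr_bind_uniform (s : Finset α) (h : s.Nonempty) (q : α → PMF β) (B : Set β) :
    pr ((PMF.uniformOfFinset s h).bind q) B = (∑ a ∈ s, pr (q a) B) / #s := by
  classical
  unfold pr
  rw [PMF.toOuterMeasure_bind_apply, tsum_eq_sum (s := s)]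
  · rw [ENNReal.toReal_sum]
    · rw [Finset.sum_div]
      refine Finset.sum_congr rfl fun a ha => ?_
      rw [PMF.uniformOfFinset_apply_of_mem h ha, ENNReal.toReal_mul, ENNReal.toReal_inv]
      simp [div_eq_inv_mul]
    · intro a ha
      exact ENNReal.mul_ne_top (PMF.apply_ne_top _ _) (outer_ne_top _ _)
  · intro b hb
    rw [PMF.uniformOfFinset_apply_of_notMem h hb, zero_mul]

end Pool.Agent.V11328
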